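import Mathlib

set_option linter.unusedSectionVars false

open MeasureTheory ProbabilityTheory Filter Topology
open scoped ENNReal NNReal

namespace Pool.Agent.Results.MP_31ab2b_pr.LocalRatio

/-- Sites of `ℤ^d`. -/
abbrev Site (d : ℕ) := Fin d → ℤ

/-- Signed unit vectors, coded by a coordinate and a sign. -/
abbrev Arrow (d : ℕ) := Fin d × Bool

/-- The vector `± e_i` coded by an arrow. -/
def vec {d : ℕ} (a : Arrow d) : Site d := Pi.single a.1 (if a.2 then 1 else -1)

/-- Environments: one arrow at every site. -/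
abbrev Env (d : ℕ) := Site d → Arrow d

/-- The uniform law on the `2d` arrows. -/
noncomputable def unif (d : ℕ) : Measure (Arrow d) := (2 * d : ℝ≥0∞)⁻¹ • Measure.count

/-- The law of the environment: independent uniform arrows. -/
noncomputable def mu (d : ℕ) : Measure (Env d) := Measure.infinitePi fun _ => unif d

/-- The transition probability `p(x,z,ω)`. -/
noncomputable def stepP {d : ℕ} (ε : ℝ) (ω : Env d) (x z : Site d) : ℝ :=
  if x - z = vec (ω x) then 1 - (2 * d - 1) * ε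
  else if ∑ i, (x i - z i) ^ 2 = 1 then ε else 0

/-- The quenched kernel `p_ω(n,x) = P^0_ω(X_n = x)`. -/
noncomputable def kern {d : ℕ} (ε : ℝ) (ω : Env d) : ℕ → Site d → ℝ
  | 0, x => if x = 0 then 1 else 0
  | n + 1, x => ∑' y, kern ε ω n y * stepP ε ω y x

/-- The averaged kernel `m_1(n,x)`. -/
noncomputable def m1 (d : ℕ) (ε : ℝ) (n : ℕ) (x : Site d) : ℝ := ∫ ω, kern ε ω n x ∂(mu d)

/-- Condition (i): the averaged central limit theorem with covariance `σ² I`, `σ² > 0`. -/
def AveragedCLT (d : ℕ) (ε : ℝ) : Prop :=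
  ∃ s2 : ℝ≥0, 0 < s2 ∧ ∀ f : BoundedContinuousFunction (Fin d → ℝ) ℝ,
    Tendsto (fun n : ℕ => ∑' x : Site d, m1 d ε n x * f (fun i => (x i : ℝ) / √(n : ℝ))) atTop
      (𝓝 (∫ z, f z ∂(Measure.pi fun _ : Fin d => gaussianReal 0 s2)))

/-- Condition (ii): `p_ω(n,x)/m_1(n,x) → 1` in `μ`-probability, uniformly over `|x| ≤ C √n`. -/
def LocalRatioLaw (d : ℕ) (ε : ℝ) : Prop :=
  ∀ C : ℝ, 0 < C → ∀ δ : ℝ, 0 < δ →
    Tendsto (fun n : ℕ => ⨆ x ∈ {x : Site d | √(∑ i, (x i : ℝ) ^ 2) ≤ C * √(n : ℝ) ∧ 0 < m1 d ε n x},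
      mu d {ω | δ < |kern ε ω n x / m1 d ε n x - 1|}) atTop (𝓝 0)

/-- The model homogenizes. -/
def Homogenizes (d : ℕ) (ε : ℝ) : Prop := AveragedCLT d ε ∧ LocalRatioLaw d ε

variable {d : ℕ} {ε : ℝ}

/-! ### One step -/

lemma vec_apply (a : Arrow d) (i : Fin d) :
    vec a i = if i = a.1 then (if a.2 then 1 else -1) else 0 := by
  simp [vec, Pi.single_apply]

lemma sum_sq_vec (a : Arrow d) (x : Site d) : ∑ i, ((x + vec a) i - x i) ^ 2 = 1 := by
  have : ∀ i, ((x + vec a) i - x i) ^ 2 = if i = a.1 then 1 else 0 := by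
    intro i
    rw [Pi.add_apply, add_sub_cancel_left, vec_apply]
    by_cases h : i = a.1
    · cases a.2 <;> simp [h]
    · simp [h]
  rw [Finset.sum_congr rfl fun i _ => this i]
  simp

lemma exists_vec {x y : Site d} (h : ∑ i, (y i - x i) ^ 2 = 1) : ∃ a : Arrow d, y = x + vec a := by
  have h1 : ∃ i, (y i - x i) ^ 2 ≠ 0 := by
    by_contra hc
    push Not at hc
    simp [Finset.sum_congr rfl fun i _ => hc i] at h
  obtain ⟨i, hi⟩ := h1
  have hsplit : (y i - x i) ^ 2 + ∑ j ∈ Finset.univ.erase i, (y j - x j) ^ 2 = 1 := by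
    rw [Finset.add_sum_erase Finset.univ (fun j => (y j - x j) ^ 2) (Finset.mem_univ i), h]
  have hrest : 0 ≤ ∑ j ∈ Finset.univ.erase i, (y j - x j) ^ 2 :=
    Finset.sum_nonneg fun j _ => sq_nonneg _
  have hpos : 1 ≤ (y i - x i) ^ 2 := by
    have := sq_nonneg (y i - x i)
    omega
  have hi1 : (y i - x i) ^ 2 = 1 := by omega
  have hr0 : ∑ j ∈ Finset.univ.erase i, (y j - x j) ^ 2 = 0 := by omega
  have hz : ∀ j, j ≠ i → y j = x j := by
    intro j hj
    have := (Finset.sum_eq_zero_iff_of_nonneg (fun j _ => sq_nonneg (y j - x j))).1 hr0 j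
      (by simp [hj])
    have h2 : y j - x j = 0 := by simpa using this
    omega
  have h3 : y i - x i = 1 ∨ y i - x i = -1 := by
    have h4 : (y i - x i - 1) * (y i - x i + 1) = 0 := by linarith [hi1, sq (y i - x i)]
    rcases mul_eq_zero.1 h4 with h | h
    · left; linarith
    · right; linarith
  rcases h3 with h3 | h3
  · refine ⟨(i, true), ?_⟩
    ext j
    rw [Pi.add_apply, vec_apply]
    by_cases hj : j = i
    · subst hj; simp; omega
    · simp [hj, hz j hj]
  · refine ⟨(i, false), ?_⟩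
    ext j
    rw [Pi.add_apply, vec_apply]
    by_cases hj : j = i
    · subst hj; simp; omega
    · simp [hj, hz j hj]

lemma vec_inj {a b : Arrow d} (h : vec a = vec b) : a = b := by
  have h1 := congrFun h a.1
  have h2 := congrFun h b.1
  rw [vec_apply, vec_apply] at h1 h2
  rcases a with ⟨i, s⟩
  rcases b with ⟨j, t⟩
  by_cases hij : i = j
  · subst hij
    cases s <;> cases t <;> simp_all
  · have : ¬ j = i := fun h => hij h.symm
    cases s <;> simp [hij] at h1

lemma add_vec_inj (x : Site d) : Function.Injective (fun a : Arrow d => x + vec a) := by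
  intro a b h
  exact vec_inj (add_left_cancel h)

lemma stepP_vec (ω : Env d) (x : Site d) (a : Arrow d) :
    stepP ε ω (x + vec a) x = if ω (x + vec a) = a then 1 - (2 * d - 1) * ε else ε := by
  unfold stepP
  rw [add_sub_cancel_left, if_pos (sum_sq_vec a x)]
  by_cases h : ω (x + vec a) = a
  · rw [if_pos h, if_pos (by rw [h])]
  · rw [if_neg h, if_neg fun h' => h (vec_inj h').symm]

lemma stepP_eq_zero (ω : Env d) {x y : Site d} (h : ∀ a : Arrow d, y ≠ x + vec a) :
    stepP ε ω y x = 0 := by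
  unfold stepP
  rw [if_neg, if_neg]
  · intro h'
    obtain ⟨a, ha⟩ := exists_vec h'
    exact h a ha
  · intro h'
    exact h (ω y) (by rw [← h']; abel)

lemma kern_succ (ω : Env d) (n : ℕ) (x : Site d) :
    kern ε ω (n + 1) x = ∑ a : Arrow d, kern ε ω n (x + vec a) * stepP ε ω (x + vec a) x := by
  classical
  rw [kern, tsum_eq_sum (s := Finset.univ.image fun a : Arrow d => x + vec a)]
  · rw [Finset.sum_image]
    intro a _ b _ h
    exact add_vec_inj x h
  · intro y hy
    rw [stepP_eq_zero, mul_zero]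
    intro a ha
    exact hy (by rw [ha]; simp)

variable (hd : 1 ≤ d) (h0 : 0 < ε) (h1 : ε < 1 / (2 * d))

include hd h0 h1

lemma gap : ε < 1 - (2 * d - 1) * ε := by
  have hd' : (0 : ℝ) < 2 * d := by
    have : (1 : ℝ) ≤ d := by exact_mod_cast hd
    linarith
  have := (lt_div_iff₀ hd').1 h1
  nlinarith

lemma le_stepP (ω : Env d) (x : Site d) (a : Arrow d) : ε ≤ stepP ε ω (x + vec a) x := by
  rw [stepP_vec]
  split_ifs
  · exact (gap hd h0 h1).le
  · exact le_rfl

lemma stepP_le (ω : Env d) (x : Site d) (a : Arrow d) : stepP ε ω (x + vec a) x ≤ 1 := by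
  have hd' : (1 : ℝ) ≤ d := by exact_mod_cast hd
  rw [stepP_vec]
  split_ifs
  · nlinarith
  · have := gap hd h0 h1
    nlinarith

lemma kern_nonneg (ω : Env d) (n : ℕ) (x : Site d) : 0 ≤ kern ε ω n x := by
  induction n generalizing x with
  | zero => rw [kern]; split_ifs <;> norm_num
  | succ n ih =>
    rw [kern_succ]
    exact Finset.sum_nonneg fun a _ => mul_nonneg (ih _) (h0.le.trans (le_stepP hd h0 h1 ω x a))

lemma kern_le (ω : Env d) (n : ℕ) (x : Site d) : kern ε ω n x ≤ (2 * d : ℝ) ^ n := by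
  induction n generalizing x with
  | zero => rw [kern]; split_ifs <;> norm_num
  | succ n ih =>
    rw [kern_succ]
    calc ∑ a : Arrow d, kern ε ω n (x + vec a) * stepP ε ω (x + vec a) x
        ≤ ∑ _a : Arrow d, (2 * d : ℝ) ^ n * 1 :=
          Finset.sum_le_sum fun a _ => mul_le_mul (ih _) (stepP_le hd h0 h1 ω x a)
            (h0.le.trans (le_stepP hd h0 h1 ω x a)) (by positivity)
      _ = (2 * d : ℝ) ^ (n + 1) := by
          simp [Finset.sum_const, Finset.card_univ, Fintype.card_prod, pow_succ]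
          ring

/-- Either `(n,x)` is unreachable, or the kernel is bounded below in every environment. -/
lemma dichotomy (n : ℕ) (x : Site d) :
    (∀ ω : Env d, kern ε ω n x = 0) ∨ (∀ ω : Env d, ε ^ n ≤ kern ε ω n x) := by
  induction n generalizing x with
  | zero =>
    by_cases hx : x = 0
    · right; intro ω; simp [kern, hx]
    · left; intro ω; simp [kern, hx]
  | succ n ih =>
    by_cases h : ∀ a : Arrow d, ∀ ω : Env d, kern ε ω n (x + vec a) = 0
    · left
      intro ω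
      rw [kern_succ]
      exact Finset.sum_eq_zero fun a _ => by rw [h a ω, zero_mul]
    · right
      push Not at h
      obtain ⟨a, ω₀, ha⟩ := h
      have hge : ∀ ω : Env d, ε ^ n ≤ kern ε ω n (x + vec a) := by
        rcases ih (x + vec a) with h' | h'
        · exact absurd (h' ω₀) ha
        · exact h'
      intro ω
      rw [kern_succ]
      calc ε ^ (n + 1) = ε ^ n * ε := pow_succ _ _
        _ ≤ kern ε ω n (x + vec a) * stepP ε ω (x + vec a) x :=
          mul_le_mul (hge ω) (le_stepP hd h0 h1 ω x a) h0.le (kern_nonneg hd h0 h1 ω n _)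
        _ ≤ _ := Finset.single_le_sum
          (f := fun a : Arrow d => kern ε ω n (x + vec a) * stepP ε ω (x + vec a) x)
          (fun b _ => mul_nonneg (kern_nonneg hd h0 h1 ω n _)
            (h0.le.trans (le_stepP hd h0 h1 ω x b))) (Finset.mem_univ a)

omit hd h0 h1 in
lemma measurable_stepP (y x : Site d) : Measurable fun ω : Env d => stepP ε ω y x := by
  have : (fun ω : Env d => stepP ε ω y x) =
      (fun b : Arrow d => if y - x = vec b then 1 - (2 * d - 1) * ε
        else if ∑ i, (y i - x i) ^ 2 = 1 then ε else 0) ∘ fun ω : Env d => ω y := rfl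
  rw [this]
  exact (measurable_of_finite _).comp (measurable_pi_apply y)

omit hd h0 h1 in
lemma measurable_kern (n : ℕ) (x : Site d) : Measurable fun ω : Env d => kern ε ω n x := by
  induction n generalizing x with
  | zero => simp only [kern]; exact measurable_const
  | succ n ih =>
    simp only [kern_succ]
    exact Finset.measurable_sum _ fun a _ => (ih _).mul (measurable_stepP _ _)

omit h0 h1 in
lemma isProb_unif : IsProbabilityMeasure (unif d) := by
  constructor
  have hd' : (2 * d : ℝ≥0∞) ≠ 0 := by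
    have : d ≠ 0 := by omega
    simpa using this
  have hd'' : (2 * d : ℝ≥0∞) ≠ ⊤ := by
    exact ENNReal.mul_ne_top (by simp) (by simp)
  have hc : (Measure.count (Set.univ : Set (Arrow d))) = 2 * d := by
    rw [Measure.count_univ]
    simp [ENat.card_eq_coe_fintype_card, mul_comm]
  rw [unif, Measure.smul_apply, hc, smul_eq_mul, ENNReal.inv_mul_cancel hd' hd'']

omit h0 h1 in
lemma isProb_mu : IsProbabilityMeasure (mu d) := by
  have := isProb_unif hd
  unfold mu
  infer_instance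

lemma m1_pos_iff (n : ℕ) (x : Site d) :
    0 < m1 d ε n x ↔ ∀ ω : Env d, ε ^ n ≤ kern ε ω n x := by
  have := isProb_mu hd
  constructor
  · intro h
    rcases dichotomy hd h0 h1 n x with h' | h'
    · simp [m1, h'] at h
    · exact h'
  · intro h
    have hint : Integrable (fun ω : Env d => kern ε ω n x) (mu d) := by
      refine Integrable.mono' (integrable_const ((2 * d : ℝ) ^ n))
        (measurable_kern n x).aestronglyMeasurable (Filter.Eventually.of_forall fun ω => ?_)
      rw [Real.norm_eq_abs, abs_of_nonneg (kern_nonneg hd h0 h1 ω n x)]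
      exact kern_le hd h0 h1 ω n x
    have : ∫ _ω : Env d, ε ^ n ∂(mu d) ≤ m1 d ε n x :=
      integral_mono (integrable_const _) hint h
    rw [integral_const] at this
    simp at this
    exact (pow_pos h0 n).trans_le this

lemma kern_zero_of_not (n : ℕ) (x : Site d) (h : ¬ 0 < m1 d ε n x) (ω : Env d) :
    kern ε ω n x = 0 := by
  rcases dichotomy hd h0 h1 n x with h' | h'
  · exact h' ω
  · exact absurd ((m1_pos_iff hd h0 h1 n x).2 h') h

/-! ### Two cylinder events -/

omit h0 h1 in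
lemma unif_ge {t : Set (Arrow d)} (ht : t.Nonempty) : (2 * d : ℝ≥0∞)⁻¹ ≤ unif d t := by
  obtain ⟨a, ha⟩ := ht
  rw [unif, Measure.smul_apply, smul_eq_mul]
  have : (1 : ℝ≥0∞) ≤ Measure.count t := by
    calc (1 : ℝ≥0∞) = Measure.count ({a} : Set (Arrow d)) := by simp
      _ ≤ Measure.count t := measure_mono (by simpa using ha)
  calc (2 * d : ℝ≥0∞)⁻¹ = (2 * d : ℝ≥0∞)⁻¹ * 1 := (mul_one _).symm
    _ ≤ _ := by gcongr

omit h0 h1 in
lemma mu_cyl (x : Site d) (t : Site d → Set (Arrow d)) (ht : ∀ a, (t (x + vec a)).Nonempty) :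
    (2 * d : ℝ≥0∞)⁻¹ ^ (2 * d) ≤ mu d {ω | ∀ a, ω (x + vec a) ∈ t (x + vec a)} := by
  classical
  have := isProb_unif hd
  have hset : {ω : Env d | ∀ a, ω (x + vec a) ∈ t (x + vec a)} =
      Set.pi (Finset.univ.image fun a : Arrow d => x + vec a) t := by
    ext ω
    constructor
    · intro h y hy
      obtain ⟨a, -, rfl⟩ := Finset.mem_image.1 (Finset.mem_coe.1 hy)
      exact h a
    · intro h a
      exact h _ (Finset.mem_coe.2 (Finset.mem_image.2 ⟨a, Finset.mem_univ a, rfl⟩))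
  rw [hset, mu, Measure.infinitePi_pi _ (fun i _ => Set.Finite.measurableSet (Set.toFinite _)),
    Finset.prod_image (fun a _ b _ h => add_vec_inj x h)]
  calc (2 * d : ℝ≥0∞)⁻¹ ^ (2 * d) = ∏ _a : Arrow d, (2 * d : ℝ≥0∞)⁻¹ := by
        simp [Finset.prod_const, Finset.card_univ, mul_comm]
    _ ≤ _ := Finset.prod_le_prod' fun a _ => unif_ge hd (ht a)

omit h0 h1 in
lemma mu_all_in (x : Site d) :
    (2 * d : ℝ≥0∞)⁻¹ ^ (2 * d) ≤ mu d {ω | ∀ a, ω (x + vec a) = a} := by
  refine (mu_cyl hd x (fun y => {b | x + vec b = y}) (fun a => ⟨a, rfl⟩)).trans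
    (measure_mono fun ω hω a => ?_)
  exact add_vec_inj x (hω a)

omit h0 h1 in
lemma mu_none_in (x : Site d) :
    (2 * d : ℝ≥0∞)⁻¹ ^ (2 * d) ≤ mu d {ω | ∀ a, ω (x + vec a) ≠ a} := by
  refine (mu_cyl hd x (fun y => {b | x + vec b ≠ y}) (fun a => ⟨(a.1, !a.2), fun h => ?_⟩)).trans
    (measure_mono fun ω hω a h => ?_)
  · have := add_vec_inj x h
    have h2 := congrArg Prod.snd this
    simp at h2
  · exact hω a (by rw [h])

/-! ### The main estimate -/

omit h1 hd in
lemma control {n : ℕ} {δ : ℝ} (hδ1 : δ < 1) {k α : ℝ} (hk : ε ^ n ≤ k)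
    (h : ¬ δ < |k / α - 1|) : (1 - δ) * α ≤ k ∧ k ≤ (1 + δ) * α ∧ 0 < α := by
  push Not at h
  have hk0 : 0 < k := (pow_pos h0 n).trans_le hk
  have hα0 : α ≠ 0 := by
    rintro rfl
    simp at h
    linarith
  have h2 := abs_le.1 h
  have hpos : 0 < α := by
    rcases lt_or_gt_of_ne hα0 with hneg | hpos
    · have : k / α < 0 := div_neg_of_pos_of_neg hk0 hneg
      linarith [h2.1]
    · exact hpos
  have h3 : 1 - δ ≤ k / α := by linarith [h2.1]
  have h4 : k / α ≤ 1 + δ := by linarith [h2.2]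
  exact ⟨(le_div_iff₀ hpos).1 h3, (div_le_iff₀ hpos).1 h4, hpos⟩

/-- The size of the fluctuation. -/
noncomputable def del (d : ℕ) (ε : ℝ) : ℝ :=
  ((1 - (2 * d - 1) * ε) - ε) / (4 * ((1 - (2 * d - 1) * ε) + ε))

/-- The probability of the fluctuation. -/
noncomputable def cst (d : ℕ) : ℝ≥0∞ := (2 * d : ℝ≥0∞)⁻¹ ^ (2 * d) / (2 * d + 1)

lemma del_pos : 0 < del d ε := by
  have := gap hd h0 h1
  unfold del
  apply div_pos <;> linarith

lemma del_lt : del d ε < 1 := by
  have := gap hd h0 h1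
  unfold del
  rw [div_lt_one (by linarith)]
  linarith

lemma del_spec : (1 + del d ε) ^ 2 * ε < (1 - del d ε) ^ 2 * (1 - (2 * d - 1) * ε) := by
  have hg := gap hd h0 h1
  set l := 1 - (2 * d - 1) * ε with hl
  have hs : 0 < 4 * (l + ε) := by linarith
  have hdel : del d ε * (4 * (l + ε)) = l - ε := by
    unfold del
    rw [← hl]
    exact div_mul_cancel₀ _ hs.ne'
  nlinarith [sq_nonneg (del d ε), mul_nonneg (sub_nonneg.2 hg.le) (sq_nonneg (del d ε))]

omit h0 h1 in
lemma cst_pos : 0 < cst d := by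
  unfold cst
  apply ENNReal.div_pos
  · apply pow_ne_zero
    simp
    exact ENNReal.mul_ne_top (by simp) (by simp)
  · exact ENNReal.add_ne_top.2 ⟨ENNReal.mul_ne_top (by simp) (by simp), by simp⟩

theorem key (a : ℕ → Site d → ℝ) (n : ℕ) (x : Site d) (hx : 0 < m1 d ε (n + 1) x) :
    cst d ≤ mu d {ω | del d ε < |kern ε ω (n + 1) x / a (n + 1) x - 1|} ∨
    ∃ b : Arrow d, 0 < m1 d ε n (x + vec b) ∧
      cst d ≤ mu d {ω | del d ε < |kern ε ω n (x + vec b) / a n (x + vec b) - 1|} := by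
  classical
  have := isProb_mu hd
  by_contra hcon
  push Not at hcon
  obtain ⟨hc1, hc2⟩ := hcon
  set δ := del d ε with hδ
  have hδ0 : 0 < δ := del_pos hd h0 h1
  have hδ1 : δ < 1 := del_lt hd h0 h1
  set l := 1 - (2 * d - 1) * ε with hl
  have hgap : ε < l := gap hd h0 h1
  -- the bad event
  let B0 : Set (Env d) := {ω | δ < |kern ε ω (n + 1) x / a (n + 1) x - 1|}
  let Bb : Arrow d → Set (Env d) := fun b =>
    if 0 < m1 d ε n (x + vec b) then
      {ω | δ < |kern ε ω n (x + vec b) / a n (x + vec b) - 1|} else ∅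
  have hBb : ∀ b, mu d (Bb b) ≤ cst d := by
    intro b
    by_cases hb : 0 < m1 d ε n (x + vec b)
    · simp only [Bb, if_pos hb]; exact (hc2 b hb).le
    · simp [Bb, if_neg hb]
  have hB : mu d (B0 ∪ ⋃ b, Bb b) < (2 * d : ℝ≥0∞)⁻¹ ^ (2 * d) := by
    calc mu d (B0 ∪ ⋃ b, Bb b) ≤ mu d B0 + ∑ b, mu d (Bb b) :=
          (measure_union_le _ _).trans (add_le_add le_rfl (measure_iUnion_fintype_le _ _))
      _ < cst d + ∑ _b : Arrow d, cst d := by
          refine ENNReal.add_lt_add_of_lt_of_le ?_ hc1 (Finset.sum_le_sum fun b _ => hBb b)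
          refine ne_top_of_le_ne_top ?_ (Finset.sum_le_sum fun b _ => hBb b)
          rw [← lt_top_iff_ne_top]
          refine ENNReal.sum_lt_top.2 fun b _ => ?_
          unfold cst
          refine ENNReal.div_lt_top ?_ ?_
          · refine ENNReal.pow_ne_top ?_
            rw [Ne, ENNReal.inv_eq_top]
            have : d ≠ 0 := by omega
            simpa using this
          · simp
      _ = (2 * d : ℝ≥0∞)⁻¹ ^ (2 * d) := by
          rw [Finset.sum_const, Finset.card_univ]
          simp only [Fintype.card_prod, Fintype.card_fin, Fintype.card_bool, nsmul_eq_mul]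
          have : cst d + ((d * 2 : ℕ) : ℝ≥0∞) * cst d = cst d * (2 * d + 1) := by
            push_cast
            ring
          rw [this, cst]
          exact ENNReal.div_mul_cancel (by simp)
            (ENNReal.add_ne_top.2 ⟨ENNReal.mul_ne_top (by simp) (by simp), by simp⟩)
  -- good environments in both cylinder events
  have hex : ∀ E : Set (Env d), (2 * d : ℝ≥0∞)⁻¹ ^ (2 * d) ≤ mu d E →
      ∃ ω ∈ E, ω ∉ B0 ∧ ∀ b, ω ∉ Bb b := by
    intro E hE
    by_contra hc
    push Not at hc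
    have hsub : E ⊆ B0 ∪ ⋃ b, Bb b := by
      intro ω hω
      by_cases h : ω ∈ B0
      · exact Or.inl h
      · obtain ⟨b, hb⟩ := hc ω hω h
        exact Or.inr (Set.mem_iUnion.2 ⟨b, hb⟩)
    exact absurd (hE.trans (measure_mono hsub)) (not_le.2 hB)
  obtain ⟨ω1, hω1, h1B0, h1Bb⟩ := hex _ (mu_all_in hd x)
  obtain ⟨ω0, hω0, h0B0, h0Bb⟩ := hex _ (mu_none_in hd x)
  let c : Arrow d → ℝ := fun b => if 0 < m1 d ε n (x + vec b) then a n (x + vec b) else 0
  have hbound : ∀ ω : Env d, (∀ b, ω ∉ Bb b) → ∀ b,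
      (1 - δ) * c b ≤ kern ε ω n (x + vec b) ∧ kern ε ω n (x + vec b) ≤ (1 + δ) * c b ∧
        0 ≤ c b := by
    intro ω hω b
    by_cases hb : 0 < m1 d ε n (x + vec b)
    · have h3 := hω b
      simp only [Bb, if_pos hb] at h3
      have h4 := control h0 hδ1 ((m1_pos_iff hd h0 h1 n _).1 hb ω) h3
      simp only [c, if_pos hb]
      exact ⟨h4.1, h4.2.1, h4.2.2.le⟩
    · have h3 := kern_zero_of_not hd h0 h1 n _ hb ω
      simp [c, if_neg hb, h3]
  have hxk := (m1_pos_iff hd h0 h1 (n + 1) x).1 hx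
  have hc1' := control h0 hδ1 (hxk ω1) h1B0
  have hc0' := control h0 hδ1 (hxk ω0) h0B0
  have hs1 : kern ε ω1 (n + 1) x = l * ∑ b, kern ε ω1 n (x + vec b) := by
    rw [kern_succ, Finset.mul_sum]
    refine Finset.sum_congr rfl fun b _ => ?_
    rw [stepP_vec, if_pos (hω1 b), mul_comm]
  have hs0 : kern ε ω0 (n + 1) x = ε * ∑ b, kern ε ω0 n (x + vec b) := by
    rw [kern_succ, Finset.mul_sum]
    refine Finset.sum_congr rfl fun b _ => ?_
    rw [stepP_vec, if_neg (hω0 b), mul_comm]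
  have hlow : (1 - δ) * ∑ b, c b ≤ ∑ b, kern ε ω1 n (x + vec b) := by
    rw [Finset.mul_sum]
    exact Finset.sum_le_sum fun b _ => (hbound ω1 h1Bb b).1
  have hupp : ∑ b, kern ε ω0 n (x + vec b) ≤ (1 + δ) * ∑ b, c b := by
    rw [Finset.mul_sum]
    exact Finset.sum_le_sum fun b _ => (hbound ω0 h0Bb b).2.1
  set A := ∑ b, c b with hA
  have hA0 : 0 ≤ A := Finset.sum_nonneg fun b _ => (hbound ω0 h0Bb b).2.2
  set α := a (n + 1) x with hα
  have hα0 : 0 < α := hc1'.2.2
  have hApos : 0 < A := by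
    have h5 : 0 < kern ε ω0 (n + 1) x := (pow_pos h0 _).trans_le (hxk ω0)
    have h6 : kern ε ω0 (n + 1) x ≤ ε * ((1 + δ) * A) := by
      rw [hs0]; exact mul_le_mul_of_nonneg_left hupp h0.le
    rcases hA0.eq_or_lt with h | h
    · rw [← h] at h6; simp at h6; linarith
    · exact h
  have e1 : l * ((1 - δ) * A) ≤ (1 + δ) * α := by
    calc l * ((1 - δ) * A) ≤ l * ∑ b, kern ε ω1 n (x + vec b) :=
          mul_le_mul_of_nonneg_left hlow (h0.le.trans hgap.le)
      _ = kern ε ω1 (n + 1) x := hs1.symm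
      _ ≤ _ := hc1'.2.1
  have e0 : (1 - δ) * α ≤ ε * ((1 + δ) * A) := by
    calc (1 - δ) * α ≤ kern ε ω0 (n + 1) x := hc0'.1
      _ = ε * ∑ b, kern ε ω0 n (x + vec b) := hs0
      _ ≤ _ := mul_le_mul_of_nonneg_left hupp h0.le
  have hspec := del_spec hd h0 h1
  rw [← hδ, ← hl] at hspec
  have f1 : (1 - δ) * (l * ((1 - δ) * A)) ≤ (1 + δ) * ((1 - δ) * α) := by
    have := mul_le_mul_of_nonneg_left e1 (by linarith : (0 : ℝ) ≤ 1 - δ)
    linarith
  have f2 : (1 + δ) * ((1 - δ) * α) ≤ (1 + δ) * (ε * ((1 + δ) * A)) :=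
    mul_le_mul_of_nonneg_left e0 (by linarith)
  have f3 : ((1 - δ) ^ 2 * l) * A ≤ ((1 + δ) ^ 2 * ε) * A := by
    calc ((1 - δ) ^ 2 * l) * A = (1 - δ) * (l * ((1 - δ) * A)) := by ring
      _ ≤ _ := f1.trans f2
      _ = _ := by ring
  have f4 := mul_lt_mul_of_pos_right hspec hApos
  linarith

/-- At even times the origin is reachable. -/
lemma reach_zero (n : ℕ) : 0 < m1 d ε (2 * n) 0 := by
  rw [m1_pos_iff hd h0 h1]
  have hex : ∀ k : ℕ, ∀ x : Site d, (∀ ω : Env d, ε ^ k ≤ kern ε ω k x) →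
      ∀ b : Arrow d, ∀ ω : Env d, ε ^ (k + 1) ≤ kern ε ω (k + 1) (x - vec b) := by
    intro k x hk b ω
    rw [kern_succ]
    calc ε ^ (k + 1) = ε ^ k * ε := pow_succ _ _
      _ ≤ kern ε ω k ((x - vec b) + vec b) * stepP ε ω ((x - vec b) + vec b) (x - vec b) :=
          mul_le_mul (by rw [sub_add_cancel]; exact hk ω) (le_stepP hd h0 h1 ω _ b) h0.le
            (kern_nonneg hd h0 h1 ω k _)
      _ ≤ _ := Finset.single_le_sum
          (f := fun a : Arrow d => kern ε ω k (x - vec b + vec a) *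
            stepP ε ω (x - vec b + vec a) (x - vec b))
          (fun a _ => mul_nonneg (kern_nonneg hd h0 h1 ω k _)
            (h0.le.trans (le_stepP hd h0 h1 ω _ a))) (Finset.mem_univ b)
  induction n with
  | zero => intro ω; simp [kern]
  | succ n ih =>
    let i0 : Fin d := ⟨0, hd⟩
    have hneg : vec ((i0, false) : Arrow d) = - vec ((i0, true) : Arrow d) := by
      ext j
      rw [Pi.neg_apply, vec_apply, vec_apply]
      by_cases hj : j = i0 <;> simp [hj]
    have s1 := hex (2 * n) 0 ih (i0, true)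
    have s2 := hex (2 * n + 1) _ s1 (i0, false)
    have : (0 : Site d) - vec (i0, true) - vec (i0, false) = 0 := by rw [hneg]; abel
    rw [this] at s2
    exact s2

/-- No deterministic normalisation `a(n,x)` makes the quenched kernel ratio converge to `1` in
probability in the diffusive region. -/
theorem no_normaliser (a : ℕ → Site d → ℝ) {C : ℝ} (hC : 0 < C) :
    ¬ Tendsto (fun n : ℕ => ⨆ x ∈ {x : Site d |
        √(∑ i, (x i : ℝ) ^ 2) ≤ C * √(n : ℝ) ∧ 0 < m1 d ε n x},
      mu d {ω | del d ε < |kern ε ω n x / a n x - 1|}) atTop (𝓝 0) := by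
  intro hT
  have hev := (hT.eventually (gt_mem_nhds (cst_pos hd)))
  obtain ⟨N, hN⟩ := eventually_atTop.1 hev
  -- choose an even time beyond all thresholds
  obtain ⟨K, hK⟩ := exists_nat_gt (1 / C ^ 2)
  let n := N + K + 1
  have hcast : (K : ℝ) ≤ ((2 * n - 1 : ℕ) : ℝ) := by
    have : K ≤ 2 * n - 1 := by omega
    exact_mod_cast this
  have hroot : 1 ≤ C * √((2 * n - 1 : ℕ) : ℝ) := by
    have h2 : 1 / C ≤ √((2 * n - 1 : ℕ) : ℝ) := by
      apply Real.le_sqrt_of_sq_le
      rw [div_pow, one_pow]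
      linarith
    calc (1 : ℝ) = C * (1 / C) := by field_simp
      _ ≤ _ := mul_le_mul_of_nonneg_left h2 hC.le
  have hn : 2 * n - 1 + 1 = 2 * n := by omega
  have hx : 0 < m1 d ε (2 * n - 1 + 1) 0 := by rw [hn]; exact reach_zero hd h0 h1 n
  rcases key hd h0 h1 a (2 * n - 1) 0 hx with h | ⟨b, hb, h⟩
  · have h3 := hN (2 * n) (by omega)
    rw [hn] at h hx
    refine absurd (h3.trans_le h) (not_lt.2 ?_)
    refine le_iSup₂_of_le (0 : Site d) ⟨?_, hx⟩ le_rfl
    simp
    positivity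
  · have h3 := hN (2 * n - 1) (by omega)
    refine absurd (h3.trans_le h) (not_lt.2 ?_)
    refine le_iSup₂_of_le (0 + vec b : Site d) ⟨?_, hb⟩ le_rfl
    have hs := sum_sq_vec b (0 : Site d)
    have hs' : ∑ i, (((0 + vec b : Site d) i : ℤ) : ℝ) ^ 2 = 1 := by
      have : ((∑ i, ((0 + vec b) i - (0 : Site d) i) ^ 2 : ℤ) : ℝ) = 1 := by rw [hs]; simp
      push_cast at this
      simpa using this
    rw [hs', Real.sqrt_one]
    exact hroot

omit hd h0 h1 in
/-- **Theorem.** -/
theorem result (d : ℕ) (hd : 1 ≤ d) (ε : ℝ) (h0 : 0 < ε) (h1 : ε < 1 / (2 * d)) :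
    ¬ Homogenizes d ε ∧
    ∃ δ : ℝ, 0 < δ ∧ ∃ c : ℝ≥0∞, 0 < c ∧ ∀ (a : ℕ → Site d → ℝ) (n : ℕ) (x : Site d),
      0 < m1 d ε (n + 1) x →
      c ≤ mu d {ω | δ < |kern ε ω (n + 1) x / a (n + 1) x - 1|} ∨
      ∃ y : Site d, ∑ i, (y i - x i) ^ 2 = 1 ∧ 0 < m1 d ε n y ∧
        c ≤ mu d {ω | δ < |kern ε ω n y / a n y - 1|} := by
  refine ⟨fun h => ?_, del d ε, del_pos hd h0 h1, cst d, cst_pos hd, fun a n x hx => ?_⟩
  · exact no_normaliser hd h0 h1 (m1 d ε) (C := 1) one_pos (h.2 1 one_pos _ (del_pos hd h0 h1))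
  · rcases key hd h0 h1 a n x hx with h | ⟨b, hb, h⟩
    · exact Or.inl h
    · exact Or.inr ⟨x + vec b, sum_sq_vec b x, hb, h⟩

end Pool.Agent.Results.MP_31ab2b_pr.LocalRatio
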